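import Mathlib

/-!
# MP_54723a_co: the grid colouring

On the vertex set `Fin (l ^ R)` the colouring of a pair `u < v` by a position in which the digit
of `u` to base `l` is smaller than that of `v` has no monochromatic monotone path with `l` edges
and no rainbow monotone path with `R + 1` edges (Lefmann, Rödl and Thomas).
-/

set_option autoImplicit false

namespace FlashU

open Function

/-- A digit of the smaller number is smaller. -/
theorem exists_digit_lt (l : ℕ) (hl : 0 < l) :
    ∀ (R u v : ℕ), u < v → v < l ^ R → ∃ d, d < R ∧ u / l ^ d % l < v / l ^ d % l := by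
  intro R
  induction R with
  | zero =>
    intro u v huv hv
    rw [pow_zero] at hv
    omega
  | succ R ih =>
    intro u v huv hv
    by_cases h : u % l < v % l
    · exact ⟨0, Nat.succ_pos R, by simpa using h⟩
    · have h1 : u / l < v / l := by
        by_contra hcon
        have h2 : v / l ≤ u / l := not_lt.1 hcon
        have h3 : l * (v / l) ≤ l * (u / l) := Nat.mul_le_mul_left l h2
        have h4 := Nat.div_add_mod u l
        have h5 := Nat.div_add_mod v l
        omega
      have h2 : v / l < l ^ R := by
        rw [Nat.div_lt_iff_lt_mul hl]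
        rwa [pow_succ] at hv
      obtain ⟨d, hd, hlt⟩ := ih _ _ h1 h2
      refine ⟨d + 1, Nat.succ_lt_succ hd, ?_⟩
      rwa [pow_succ', ← Nat.div_div_eq_div_mul, ← Nat.div_div_eq_div_mul]

open Classical in
/-- The grid colouring. -/
noncomputable def gridCol (l R : ℕ) (u v : Fin (l ^ R)) : ℕ :=
  if h : ∃ d, d < R ∧ u.val / l ^ d % l < v.val / l ^ d % l then h.choose else 0

theorem gridCol_spec {l R : ℕ} (hl : 0 < l) {u v : Fin (l ^ R)} (huv : u < v) :
    gridCol l R u v < R ∧
      u.val / l ^ (gridCol l R u v) % l < v.val / l ^ (gridCol l R u v) % l := by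
  classical
  have h := exists_digit_lt l hl R u.val v.val huv v.isLt
  have : gridCol l R u v = h.choose := by
    unfold gridCol
    rw [dif_pos h]
  rw [this]
  exact h.choose_spec

/-- **The grid colouring has no `l`-flash and no `(R + 1)`-rainbow.** -/
theorem grid_lower (l R : ℕ) (hl : 0 < l) :
    ∃ c : Fin (l ^ R) → Fin (l ^ R) → ℕ,
      (¬ ∃ x : Fin (l + 1) → Fin (l ^ R), StrictMono x ∧
        ∃ col : ℕ, ∀ i : Fin l, c (x i.castSucc) (x i.succ) = col) ∧
      (¬ ∃ y : Fin (R + 2) → Fin (l ^ R), StrictMono y ∧
        Injective (fun i : Fin (R + 1) => c (y i.castSucc) (y i.succ))) := by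
  refine ⟨gridCol l R, ?_, ?_⟩
  · rintro ⟨x, hx, col, hcol⟩
    have hs : StrictMono (fun s : Fin (l + 1) => (x s).val / l ^ col % l) := by
      rw [Fin.strictMono_iff_lt_succ]
      intro i
      have h1 := (gridCol_spec (R := R) hl (hx (Fin.castSucc_lt_succ (i := i)))).2
      rw [hcol i] at h1
      exact h1
    let f : Fin (l + 1) → Fin l := fun s => ⟨(x s).val / l ^ col % l, Nat.mod_lt _ hl⟩
    have hf : Injective f := by
      intro a b hab
      exact hs.injective (congrArg Fin.val hab)
    have := Fintype.card_le_of_injective f hf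
    rw [Fintype.card_fin, Fintype.card_fin] at this
    omega
  · rintro ⟨y, hy, hinj⟩
    let f : Fin (R + 1) → Fin R := fun i =>
      ⟨gridCol l R (y i.castSucc) (y i.succ),
        (gridCol_spec (R := R) hl (hy (Fin.castSucc_lt_succ (i := i)))).1⟩
    have hf : Injective f := by
      intro a b hab
      exact hinj (congrArg Fin.val hab)
    have := Fintype.card_le_of_injective f hf
    rw [Fintype.card_fin, Fintype.card_fin] at this
    omega

end FlashU
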