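import Mathlib

set_option autoImplicit false

/-! Labels of vertices: levels and palettes of rainbow paths into the vertex. -/

namespace FlashU

/-- A label: a level for each colour and a family of palettes. -/
structure Lab (m : ℕ) where
  /-- the level in each colour -/
  lev : Fin m → ℕ
  /-- the palettes of rainbow paths into the vertex -/
  pal : Finset (Finset (Fin m))

variable {m : ℕ}

/-- The label has levels below `l` and palettes of size at most `R`, the empty one included. -/
structure Lab.Ok (l R : ℕ) (x : Lab m) : Prop where
  lev_lt : ∀ g, x.lev g < l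
  empty_mem : ∅ ∈ x.pal
  card_le : ∀ P ∈ x.pal, P.card ≤ R

/-- An arc of colour `h` between labels. -/
def ArcAt (h : Fin m) (x y : Lab m) : Prop :=
  x.lev h < y.lev h ∧ ∀ P ∈ x.pal, h ∉ P → insert h P ∈ y.pal

/-- An arc between labels. -/
def Arc (x y : Lab m) : Prop := ∃ h, ArcAt h x y

end FlashU
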