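import Mathlib
import Pool.Agent.Work.MP_54723a_co.FlashU.Lab

/-!
# MP_54723a_co, route U: from colourings to labels

For a colouring of the pairs of `Fin n` with `m` colours that has no monochromatic monotone
path with `l` edges and no rainbow monotone path with `R + 1` edges, every vertex gets an
admissible label, and the pair `i < j` becomes an arc whose colour is the colour of the pair.
Colourings with colours in `ℕ` are reduced to finitely many colours.
-/

set_option autoImplicit false

namespace FlashU

open Function

section Paths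

variable {n : ℕ} {α : Type*}

/-- A monotone path of colour `g` with `t` edges ends at the vertex. -/
inductive MPath (c : Fin n → Fin n → α) (g : α) : ℕ → Fin n → Prop
  | base (i : Fin n) : MPath c g 0 i
  | step {t : ℕ} {i j : Fin n} : MPath c g t i → i < j → c i j = g → MPath c g (t + 1) j

/-- A monotone rainbow path whose palette is the finite set ends at the vertex. -/
inductive RPath [DecidableEq α] (c : Fin n → Fin n → α) : Finset α → Fin n → Prop
  | base (i : Fin n) : RPath c ∅ i
  | step {P : Finset α} {i j : Fin n} : RPath c P i → i < j → c i j ∉ P →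
      RPath c (insert (c i j) P) j

/-- Appending a larger vertex keeps a sequence increasing. -/
theorem strictMono_snoc {t : ℕ} (x : Fin (t + 1) → Fin n) (hx : StrictMono x) (j : Fin n)
    (h : x (Fin.last t) < j) : StrictMono (Fin.snoc (α := fun _ => Fin n) x j) := by
  rw [Fin.strictMono_iff_lt_succ]
  intro s
  refine Fin.lastCases ?_ (fun s' => ?_) s
  · rw [Fin.succ_last, Fin.snoc_last, Fin.snoc_castSucc]
    exact h
  · rw [Fin.succ_castSucc, Fin.snoc_castSucc, Fin.snoc_castSucc]
    exact hx (Fin.castSucc_lt_succ)

/-- A path of colour `g` as a strictly increasing function. -/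
theorem MPath.exists_fun {c : Fin n → Fin n → α} {g : α} {t : ℕ} {i : Fin n}
    (h : MPath c g t i) : ∃ x : Fin (t + 1) → Fin n, StrictMono x ∧ x (Fin.last t) = i ∧
      ∀ s : Fin t, c (x s.castSucc) (x s.succ) = g := by
  induction h with
  | base i =>
    refine ⟨fun _ => i, ?_, rfl, fun s => s.elim0⟩
    intro a b hab
    have ha := a.isLt
    have hb := b.isLt
    have hab' : a.val < b.val := hab
    omega
  | @step t i j _ hij hc ih =>
    obtain ⟨x, hx, hl, hcol⟩ := ih
    refine ⟨Fin.snoc (α := fun _ => Fin n) x j, strictMono_snoc x hx j (by rw [hl]; exact hij),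
      Fin.snoc_last _ _, ?_⟩
    intro s
    refine Fin.lastCases ?_ (fun s' => ?_) s
    · rw [Fin.succ_last, Fin.snoc_last, Fin.snoc_castSucc, hl]
      exact hc
    · rw [Fin.succ_castSucc, Fin.snoc_castSucc, Fin.snoc_castSucc]
      exact hcol s'

/-- A rainbow path as a strictly increasing function. -/
theorem RPath.exists_fun [DecidableEq α] {c : Fin n → Fin n → α} {P : Finset α} {i : Fin n}
    (h : RPath c P i) : ∃ y : Fin (P.card + 1) → Fin n, StrictMono y ∧
      y (Fin.last P.card) = i ∧
      Injective (fun s : Fin P.card => c (y s.castSucc) (y s.succ)) ∧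
      ∀ s : Fin P.card, c (y s.castSucc) (y s.succ) ∈ P := by
  suffices H : ∀ t : ℕ, P.card = t → ∃ y : Fin (t + 1) → Fin n, StrictMono y ∧
      y (Fin.last t) = i ∧
      Injective (fun s : Fin t => c (y s.castSucc) (y s.succ)) ∧
      ∀ s : Fin t, c (y s.castSucc) (y s.succ) ∈ P from H _ rfl
  induction h with
  | base i =>
    intro t ht
    rw [Finset.card_empty] at ht
    subst ht
    refine ⟨fun _ => i, ?_, rfl, fun s => s.elim0, fun s => s.elim0⟩
    intro a b hab
    have ha := a.isLt
    have hb := b.isLt
    have hab' : a.val < b.val := hab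
    omega
  | @step P i j _ hij hc ih =>
    intro t ht
    rw [Finset.card_insert_of_notMem hc] at ht
    subst ht
    obtain ⟨y, hy, hl, hinj, hmem⟩ := ih _ rfl
    have e1 : ∀ s' : Fin P.card,
        c ((Fin.snoc (α := fun _ => Fin n) y j : Fin (P.card + 1 + 1) → Fin n)
            s'.castSucc.castSucc)
          ((Fin.snoc (α := fun _ => Fin n) y j : Fin (P.card + 1 + 1) → Fin n)
            s'.castSucc.succ) = c (y s'.castSucc) (y s'.succ) := by
      intro s'
      rw [Fin.succ_castSucc, Fin.snoc_castSucc, Fin.snoc_castSucc]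
    have e2 : c ((Fin.snoc (α := fun _ => Fin n) y j : Fin (P.card + 1 + 1) → Fin n)
            (Fin.last P.card).castSucc)
          ((Fin.snoc (α := fun _ => Fin n) y j : Fin (P.card + 1 + 1) → Fin n)
            (Fin.last P.card).succ) = c i j := by
      rw [Fin.succ_last, Fin.snoc_last, Fin.snoc_castSucc, hl]
    refine ⟨Fin.snoc (α := fun _ => Fin n) y j,
      strictMono_snoc y hy j (by rw [hl]; exact hij), Fin.snoc_last _ _, ?_, ?_⟩
    · intro s s' hss
      simp only at hss
      revert hss
      refine Fin.lastCases ?_ (fun a => ?_) s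
      · refine Fin.lastCases ?_ (fun b => ?_) s'
        · intro _; rfl
        · intro hss
          rw [e1, e2] at hss
          exact absurd (hss ▸ hmem b) hc
      · refine Fin.lastCases ?_ (fun b => ?_) s'
        · intro hss
          rw [e1, e2] at hss
          exact absurd (hss ▸ hmem a) hc
        · intro hss
          rw [e1, e1] at hss
          rw [hinj hss]
    · intro s
      refine Fin.lastCases ?_ (fun a => ?_) s
      · rw [e2]
        exact Finset.mem_insert_self _ _
      · rw [e1]
        exact Finset.mem_insert_of_mem (hmem a)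

end Paths

section Labels

variable {n m : ℕ}

open Classical in
/-- The label of a vertex. -/
noncomputable def labOf (l : ℕ) (c : Fin n → Fin n → Fin m) (i : Fin n) : Lab m where
  lev g := Nat.findGreatest (fun t => MPath c g t i) l
  pal := Finset.univ.filter (fun P => RPath c P i)

theorem mem_pal_labOf {l : ℕ} {c : Fin n → Fin n → Fin m} {i : Fin n} {P : Finset (Fin m)} :
    P ∈ (labOf l c i).pal ↔ RPath c P i := by
  classical
  simp [labOf]

/-- **From colourings to labels.** -/
theorem exists_labels (l R : ℕ) (c : Fin n → Fin n → Fin m)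
    (hmono : ¬ ∃ x : Fin (l + 1) → Fin n, StrictMono x ∧
      ∃ col : Fin m, ∀ i : Fin l, c (x i.castSucc) (x i.succ) = col)
    (hrain : ¬ ∃ y : Fin (R + 2) → Fin n, StrictMono y ∧
      Injective (fun i : Fin (R + 1) => c (y i.castSucc) (y i.succ))) :
    ∃ lab : Fin n → Lab m, (∀ i, (lab i).Ok l R) ∧
      ∀ i j, i < j → ArcAt (c i j) (lab i) (lab j) := by
  classical
  have hM : ∀ g i, ¬ MPath c g l i := by
    intro g i h
    obtain ⟨x, hx, _, hcol⟩ := h.exists_fun
    exact hmono ⟨x, hx, g, hcol⟩
  have hR : ∀ P i, RPath c P i → P.card ≠ R + 1 := by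
    intro P i h hP
    obtain ⟨y, hy, _, hinj, _⟩ := h.exists_fun
    revert y
    rw [hP]
    intro y hy _ hinj _
    exact hrain ⟨y, hy, hinj⟩
  have hR' : ∀ P i, RPath c P i → P.card ≤ R := by
    intro P i h
    induction h with
    | base i => simp
    | @step P i j h hij hc ih =>
      have h1 := hR _ _ (RPath.step h hij hc)
      rw [Finset.card_insert_of_notMem hc] at h1 ⊢
      omega
  have hlev : ∀ g i, (labOf l c i).lev g < l := by
    intro g i
    have h0 : MPath c g ((labOf l c i).lev g) i :=
      Nat.findGreatest_spec (P := fun t => MPath c g t i) (Nat.zero_le l) (MPath.base i)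
    have h1 : (labOf l c i).lev g ≤ l := Nat.findGreatest_le l
    rcases Nat.lt_or_ge ((labOf l c i).lev g) l with h | h
    · exact h
    · exact absurd ((le_antisymm h1 h) ▸ h0) (hM g i)
  refine ⟨labOf l c, ?_, ?_⟩
  · intro i
    refine ⟨fun g => hlev g i, mem_pal_labOf.2 (RPath.base i), ?_⟩
    intro P hP
    exact hR' P i (mem_pal_labOf.1 hP)
  · intro i j hij
    refine ⟨?_, ?_⟩
    · have h0 : MPath c (c i j) ((labOf l c i).lev (c i j)) i :=
        Nat.findGreatest_spec (P := fun t => MPath c (c i j) t i) (Nat.zero_le l)
          (MPath.base i)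
      have h1 : (labOf l c i).lev (c i j) + 1 ≤ l := hlev (c i j) i
      exact Nat.le_findGreatest (P := fun t => MPath c (c i j) t j) h1
        (MPath.step h0 hij rfl)
    · intro P hP hh
      exact mem_pal_labOf.2 (RPath.step (mem_pal_labOf.1 hP) hij hh)

/-- The labels of different vertices are different. -/
theorem labels_injective (lab : Fin n → Lab m) (c : Fin n → Fin n → Fin m)
    (harc : ∀ i j, i < j → ArcAt (c i j) (lab i) (lab j)) : Injective lab := by
  intro i j hij
  by_contra hne
  rcases lt_or_gt_of_ne hne with h | h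
  · have := (harc i j h).1
    rw [hij] at this
    exact lt_irrefl _ this
  · have := (harc j i h).1
    rw [hij] at this
    exact lt_irrefl _ this

end Labels

section Reduction

/-- **Reduction to finitely many colours and to labels.** If every sequence of admissible
labels, over any number of colours, with arcs from each label to all later ones has length at
most `B`, then every colouring of the pairs of `Fin (B + 1)` has a monochromatic monotone path
with `l` edges or a rainbow monotone path with `R + 1` edges. -/
theorem ramsey_of_labels (l R B : ℕ)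
    (H : ∀ (m n : ℕ) (lab : Fin n → Lab m), (∀ i, (lab i).Ok l R) →
      (∀ i j, i < j → Arc (lab i) (lab j)) → n ≤ B)
    (n : ℕ) (hn : B < n) (c : Fin n → Fin n → ℕ) :
    (∃ x : Fin (l + 1) → Fin n, StrictMono x ∧
        ∃ col : ℕ, ∀ i : Fin l, c (x i.castSucc) (x i.succ) = col) ∨
      (∃ y : Fin (R + 2) → Fin n, StrictMono y ∧
        Injective (fun i : Fin (R + 1) => c (y i.castSucc) (y i.succ))) := by
  classical
  by_contra hcon
  rw [not_or] at hcon
  obtain ⟨hmono, hrain⟩ := hcon
  -- the set of colours that occur
  let S : Finset ℕ := (Finset.univ : Finset (Fin n × Fin n)).image (fun p => c p.1 p.2)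
  have hS : ∀ i j, c i j ∈ S := fun i j =>
    Finset.mem_image.2 ⟨(i, j), Finset.mem_univ _, rfl⟩
  let e : S ≃ Fin S.card := S.equivFin
  let c' : Fin n → Fin n → Fin S.card := fun i j => e ⟨c i j, hS i j⟩
  have hc' : ∀ i j i' j', c' i j = c' i' j' → c i j = c i' j' := by
    intro i j i' j' h
    have := e.injective h
    exact congrArg Subtype.val this
  have hc'' : ∀ i j i' j', c i j = c i' j' → c' i j = c' i' j' := by
    intro i j i' j' h
    exact congrArg e (Subtype.ext h)
  obtain ⟨lab, hok, harc⟩ := exists_labels l R c'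
    (by
      rintro ⟨x, hx, col, hcol⟩
      refine hmono ⟨x, hx, (e.symm col).1, fun i => ?_⟩
      have := hcol i
      have h2 : (⟨c (x i.castSucc) (x i.succ), hS _ _⟩ : S) = e.symm col := by
        rw [← this]; exact (e.symm_apply_apply _).symm
      exact congrArg Subtype.val h2)
    (by
      rintro ⟨y, hy, hinj⟩
      refine hrain ⟨y, hy, fun a b hab => hinj ?_⟩
      exact hc'' _ _ _ _ hab)
  have := H S.card n lab hok (fun i j hij => ⟨_, harc i j hij⟩)
  omega

/-- The same for the vertex set `Fin (B + 1)`. -/
theorem ramsey_of_labels' (l R B : ℕ)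
    (H : ∀ (m n : ℕ) (lab : Fin n → Lab m), (∀ i, (lab i).Ok l R) →
      (∀ i j, i < j → Arc (lab i) (lab j)) → n ≤ B)
    (c : Fin (B + 1) → Fin (B + 1) → ℕ) :
    (∃ x : Fin (l + 1) → Fin (B + 1), StrictMono x ∧
        ∃ col : ℕ, ∀ i : Fin l, c (x i.castSucc) (x i.succ) = col) ∨
      (∃ y : Fin (R + 2) → Fin (B + 1), StrictMono y ∧
        Injective (fun i : Fin (R + 1) => c (y i.castSucc) (y i.succ))) :=
  ramsey_of_labels l R B H (B + 1) (Nat.lt_succ_self B) c

end Reduction

end FlashU
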