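import Mathlib
import Pool.Agent.Work.MP_54723a_co.FlashU.Lab
import Pool.Agent.Work.MP_54723a_co.FlashU.OfCol
import Pool.Agent.Work.MP_54723a_co.FlashU.Grid

/-!
# MP_54723a_co, route U: assembly

The statement of the problem follows from the bound `3 ^ R` on sequences of admissible labels.
-/

set_option autoImplicit false

namespace FlashU

/-- The label form of the upper bound: sequences of admissible labels with arcs forwards have
at most `l ^ R` members. -/
def LabelBound (l R : ℕ) : Prop :=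
  ∀ (m n : ℕ) (lab : Fin n → Lab m), (∀ i, (lab i).Ok l R) →
    (∀ i j, i < j → Arc (lab i) (lab j)) → n ≤ l ^ R

/-- **Assembly** for every `l` and one `R`. -/
theorem flash_of_labelBound (l R : ℕ) (hl : 0 < l) (H : LabelBound l R) :
    (∃ c : Fin (l ^ R) → Fin (l ^ R) → ℕ,
        (¬ ∃ x : Fin (l + 1) → Fin (l ^ R), StrictMono x ∧
            ∃ col : ℕ, ∀ i : Fin l, c (x i.castSucc) (x i.succ) = col) ∧
        (¬ ∃ y : Fin (R + 1 + 1) → Fin (l ^ R), StrictMono y ∧
            Function.Injective (fun i : Fin (R + 1) => c (y i.castSucc) (y i.succ)))) ∧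
    (∀ c : Fin (l ^ R + 1) → Fin (l ^ R + 1) → ℕ,
        (∃ x : Fin (l + 1) → Fin (l ^ R + 1), StrictMono x ∧
            ∃ col : ℕ, ∀ i : Fin l, c (x i.castSucc) (x i.succ) = col) ∨
        (∃ y : Fin (R + 1 + 1) → Fin (l ^ R + 1), StrictMono y ∧
            Function.Injective (fun i : Fin (R + 1) => c (y i.castSucc) (y i.succ)))) :=
  ⟨grid_lower l R hl, ramsey_of_labels' l R (l ^ R) H⟩

/-- **Assembly** of the statement of S08791. -/
theorem s08791_of_labelBound (H : ∀ R, LabelBound 3 R) :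
    ∀ k : ℕ, 1 ≤ k →
      (∃ c : Fin (3 ^ (k - 1)) → Fin (3 ^ (k - 1)) → ℕ,
          (¬ ∃ x : Fin (3 + 1) → Fin (3 ^ (k - 1)), StrictMono x ∧
              ∃ col : ℕ, ∀ i : Fin 3, c (x i.castSucc) (x i.succ) = col) ∧
          (¬ ∃ y : Fin (k + 1) → Fin (3 ^ (k - 1)), StrictMono y ∧
              Function.Injective (fun i : Fin k => c (y i.castSucc) (y i.succ)))) ∧
      (∀ c : Fin (3 ^ (k - 1) + 1) → Fin (3 ^ (k - 1) + 1) → ℕ,
          (∃ x : Fin (3 + 1) → Fin (3 ^ (k - 1) + 1), StrictMono x ∧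
              ∃ col : ℕ, ∀ i : Fin 3, c (x i.castSucc) (x i.succ) = col) ∨
          (∃ y : Fin (k + 1) → Fin (3 ^ (k - 1) + 1), StrictMono y ∧
              Function.Injective (fun i : Fin k => c (y i.castSucc) (y i.succ)))) := by
  intro k hk
  obtain ⟨R, rfl⟩ : ∃ R, k = R + 1 := ⟨k - 1, by omega⟩
  exact flash_of_labelBound 3 R (by norm_num) (H R)

end FlashU
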