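import Mathlib
import Pool.Agent.Work.MP_54723a_co.SB.SkewBollobas

/-!
# MP_54723a_co: colourings with at most `k` colours

Sequences of vertices with levels and palettes over a finite set `F` of colours which is the
palette of no path. For `2 ^ j` levels there are at most `(2 ^ j) ^ (|F| - 1)` vertices, for `l`
levels at most `l ^ |F| / 2 ^ (log l)`.
-/

set_option autoImplicit false

namespace FlashU

namespace PowTwo

open Finset

/-- `(P, E)` is a valid pair inside `F` for the family `J` and the set `I`. -/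
structure Valid (F : Finset ℕ) (J : Finset ℕ → Prop) (I P E : Finset ℕ) : Prop where
  sub : P ⊆ E
  subF : E ⊆ F
  card : E.card = P.card + 1
  typ : (J I ∧ I ⊆ P ∧ ¬ J E ∧ ∀ Q, Q ⊆ F → I ⊆ Q → Q.card ≤ P.card → J Q) ∨
    (¬ J I ∧ E ⊆ I ∧ J P ∧ ∀ Q, Q ⊆ I → P.card < Q.card → ¬ J Q)

theorem exists_valid (F : Finset ℕ) (J : Finset ℕ → Prop) (h0 : J ∅) (h1 : ¬ J F)
    (I : Finset ℕ) (hIF : I ⊆ F) : ∃ P E, Valid F J I P E := by
  classical
  by_cases hI : J I
  · set S : Finset (Finset ℕ) := F.powerset.filter (fun Q => I ⊆ Q ∧ ¬ J Q) with hS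
    have hne : S.Nonempty := ⟨F, by simp [hS, h1, hIF]⟩
    obtain ⟨E, hE, hmin⟩ := Finset.exists_min_image S Finset.card hne
    have hE' : E ⊆ F ∧ I ⊆ E ∧ ¬ J E := by simpa [hS] using hE
    have hIE : I ≠ E := fun h => hE'.2.2 (h ▸ hI)
    obtain ⟨h, hhE, hhI⟩ : ∃ h ∈ E, h ∉ I := by
      by_contra hcon
      push Not at hcon
      exact hIE (Finset.Subset.antisymm hE'.2.1 hcon)
    have hcard : E.card = (E.erase h).card + 1 := by
      rw [Finset.card_erase_of_mem hhE]
      have := Finset.card_pos.2 ⟨h, hhE⟩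
      omega
    refine ⟨E.erase h, E, ⟨Finset.erase_subset _ _, hE'.1, hcard,
      Or.inl ⟨hI, ?_, hE'.2.2, ?_⟩⟩⟩
    · intro x hx
      exact Finset.mem_erase.2 ⟨fun hxh => hhI (hxh ▸ hx), hE'.2.1 hx⟩
    · intro Q hQF hIQ hQc
      by_contra hQ
      have := hmin Q (by simp [hS, hIQ, hQ, hQF])
      omega
  · set S : Finset (Finset ℕ) := I.powerset.filter (fun Q => J Q) with hS
    have hne : S.Nonempty := ⟨∅, by simp [hS, h0]⟩
    obtain ⟨P, hP, hmax⟩ := Finset.exists_max_image S Finset.card hne
    have hP' : P ⊆ I ∧ J P := by simpa [hS] using hP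
    have hIP : P ≠ I := fun h => hI (h ▸ hP'.2)
    obtain ⟨h, hhI, hhP⟩ : ∃ h ∈ I, h ∉ P := by
      by_contra hcon
      push Not at hcon
      exact hIP (Finset.Subset.antisymm hP'.1 hcon)
    have hsub : insert h P ⊆ I := by
      intro x hx
      rcases Finset.mem_insert.1 hx with rfl | hx
      · exact hhI
      · exact hP'.1 hx
    refine ⟨P, insert h P, ⟨Finset.subset_insert _ _, hsub.trans hIF,
      Finset.card_insert_of_notMem hhP, Or.inr ⟨hI, hsub, hP'.2, ?_⟩⟩⟩
    intro Q hQI hQc hQ
    have := hmax Q (by simp [hS, hQI, hQ])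
    omega

theorem Valid.not_mem {F : Finset ℕ} {J : Finset ℕ → Prop} {I P E : Finset ℕ}
    (h : Valid F J I P E) : ¬ J E := by
  rcases h.typ with ⟨_, _, h3, _⟩ | ⟨_, h2, _, h4⟩
  · exact h3
  · exact h4 E h2 (by have := h.card; omega)

theorem Valid.mem {F : Finset ℕ} {J : Finset ℕ → Prop} {I P E : Finset ℕ}
    (h : Valid F J I P E) : J P := by
  rcases h.typ with ⟨_, h2, _, h4⟩ | ⟨_, _, h3, _⟩
  · exact h4 P (h.sub.trans h.subF) h2 le_rfl
  · exact h3

/-- An arc whose colour is in `I'`, with `P ⊆ E'` and no loss of size: the colour is in `P`. -/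
theorem Valid.mem_of_subset {F : Finset ℕ} {J J' : Finset ℕ → Prop}
    {I I' P E P' E' : Finset ℕ}
    (hv : Valid F J I P E) (hv' : Valid F J' I' P' E') {g : ℕ} (hg' : g ∈ I')
    (harc : ∀ Q, J Q → g ∉ Q → J' (insert g Q)) (hsub : P ⊆ E')
    (hcard : P'.card ≤ P.card) : g ∈ P := by
  by_contra hgP
  have hE'c := hv'.card
  have hins := harc P hv.mem hgP
  by_cases hgE : g ∈ E'
  · have : insert g P = E' := by
      refine Finset.eq_of_subset_of_card_le ?_ ?_
      · intro x hx
        rcases Finset.mem_insert.1 hx with rfl | hx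
        · exact hgE
        · exact hsub hx
      · rw [Finset.card_insert_of_notMem hgP]; omega
    rw [this] at hins
    exact hv'.not_mem hins
  · rcases hv'.typ with ⟨_, h2, _, _⟩ | ⟨_, h2, _, h4⟩
    · exact hgE (hv'.sub (h2 hg'))
    · refine h4 (insert g P) ?_ ?_ hins
      · intro x hx
        rcases Finset.mem_insert.1 hx with rfl | hx
        · exact hg'
        · exact h2 (hsub hx)
      · rw [Finset.card_insert_of_notMem hgP]; omega

/-- An arc which enters `I'` from outside `I`, with `P ⊆ E'` and no loss of size: impossible. -/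
theorem Valid.lt_of_subset {F : Finset ℕ} {J J' : Finset ℕ → Prop}
    {I I' P E P' E' : Finset ℕ}
    (hv : Valid F J I P E) (hv' : Valid F J' I' P' E') {g : ℕ} (hg : g ∉ I) (hg' : g ∈ I')
    (harc : ∀ Q, J Q → g ∉ Q → J' (insert g Q)) (hsub : P ⊆ E') : P.card < P'.card := by
  by_contra hlt
  have hle : P'.card ≤ P.card := not_lt.1 hlt
  have hgP := hv.mem_of_subset hv' hg' harc hsub hle
  have hgE : g ∈ E' := hsub hgP
  have hE'c := hv'.card
  rcases hv.typ with ⟨_, h2, _, h4⟩ | ⟨_, h2, _, _⟩
  · have hc : (E'.erase g).card = P'.card := by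
      rw [Finset.card_erase_of_mem hgE]; omega
    have hmem : J (E'.erase g) := by
      refine h4 _ ((Finset.erase_subset _ _).trans hv'.subF) ?_ (by omega)
      intro x hx
      exact Finset.mem_erase.2 ⟨fun hxg => hg (hxg ▸ hx), hsub (h2 hx)⟩
    have := harc _ hmem (Finset.notMem_erase _ _)
    rw [Finset.insert_erase hgE] at this
    exact hv'.not_mem this
  · exact hg (h2 (hv.sub hgP))

/-- A set of vertices with levels below `l` and families of palettes, over the colours `F`. -/
structure Sys {α : Type*} [LinearOrder α] (F : Finset ℕ) (l : ℕ) (V : Finset α)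
    (lev : α → ℕ → ℕ) (J : α → Finset ℕ → Prop) : Prop where
  lev_lt : ∀ v ∈ V, ∀ h ∈ F, lev v h < l
  empty : ∀ v ∈ V, J v ∅
  full : ∀ v ∈ V, ¬ J v F
  arc : ∀ u ∈ V, ∀ v ∈ V, u < v → ∃ h ∈ F, lev u h < lev v h ∧
    ∀ Q, J u Q → h ∉ Q → J v (insert h Q)

/-- a bit that goes up -/
theorem exists_bit {a b : ℕ} (h : a < b) : ∃ i, a.testBit i = false ∧ b.testBit i = true := by
  by_contra hcon
  push Not at hcon
  have hab : b &&& a = b := by
    apply Nat.eq_of_testBit_eq
    intro i
    rw [Nat.testBit_and]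
    by_cases hb : b.testBit i = true
    · have ha : a.testBit i = true := by
        by_contra hne
        exact hcon i (by simpa using hne) hb
      rw [ha, hb]; rfl
    · have : b.testBit i = false := by simpa using hb
      rw [this]; rfl
  have : b &&& a ≤ a := Nat.and_le_right
  omega

/-- **Powers of two.** -/
theorem card_le_two_pow {α : Type*} [LinearOrder α] {F : Finset ℕ} {j : ℕ} {V : Finset α}
    {lev : α → ℕ → ℕ} {J : α → Finset ℕ → Prop} (H : Sys F (2 ^ j) V lev J) :
    2 ^ j * V.card ≤ (2 ^ j) ^ F.card := by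
  classical
  rcases V.eq_empty_or_nonempty with rfl | ⟨v₀, hv₀⟩
  · simp
  have hF : F.Nonempty := by
    rcases F.eq_empty_or_nonempty with h | h
    · exact absurd (h ▸ H.empty v₀ hv₀) (H.full v₀ hv₀)
    · exact h
  have hFc : 0 < F.card := Finset.card_pos.2 hF
  -- the level sets of the bits
  let T : α → Fin j → Finset ℕ := fun v i => F.filter (fun h => (lev v h).testBit i = true)
  have hex : ∀ v : α, ∀ i : Fin j, ∃ P E, v ∈ V → Valid F (J v) (T v i) P E := by
    intro v i
    by_cases hv : v ∈ V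
    · obtain ⟨P, E, h⟩ := exists_valid F (J v) (H.empty v hv) (H.full v hv) (T v i)
        (Finset.filter_subset _ _)
      exact ⟨P, E, fun _ => h⟩
    · exact ⟨∅, ∅, fun h => absurd h hv⟩
  choose P E hPE using hex
  have hle : ∀ v ∈ V, ∀ i, (P v i).card ≤ F.card - 1 := by
    intro v hv i
    have h1 := (hPE v i hv).card
    have h2 := Finset.card_le_card (hPE v i hv).subF
    omega
  have hmaps : ∀ v ∈ V, (fun i => (P v i).card) ∈
      Fintype.piFinset (fun _ : Fin j => range (F.card)) := by
    intro v hv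
    simp only [Fintype.mem_piFinset, mem_range]
    intro i
    have := hle v hv i
    omega
  have hcount := Finset.card_eq_sum_card_fiberwise hmaps
  have hfib : ∀ a ∈ Fintype.piFinset (fun _ : Fin j => range (F.card)),
      (V.filter (fun v => (fun i => (P v i).card) = a)).card ≤
        ∏ i, (F.card - 1).choose (a i) := by
    intro a ha
    simp only [Fintype.mem_piFinset, mem_range] at ha
    have key := FlashRainbow.SB.hadamard (ι := Fin j)
      (V.filter (fun v => (fun i => (P v i).card) = a)) a (fun i => F.card - 1 - a i)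
      (fun v i => P v i) (fun v i => F \ E v i) ?_ ?_ ?_ ?_
    · refine key.trans (le_of_eq ?_)
      refine Finset.prod_congr rfl (fun i _ => ?_)
      congr 1
      have := ha i
      omega
    · intro v hv i
      exact congrFun (Finset.mem_filter.1 hv).2 i
    · intro v hv i
      have hvV := (Finset.mem_filter.1 hv).1
      have h1 := (hPE v i hvV).card
      have h2 : (P v i).card = a i := congrFun (Finset.mem_filter.1 hv).2 i
      rw [Finset.card_sdiff_of_subset (hPE v i hvV).subF]
      omega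
    · intro v hv i
      have hvV := (Finset.mem_filter.1 hv).1
      exact Finset.disjoint_of_subset_left (hPE v i hvV).sub Finset.disjoint_sdiff
    · intro u hu v hv huv
      have huV := (Finset.mem_filter.1 hu).1
      have hvV := (Finset.mem_filter.1 hv).1
      obtain ⟨h, hhF, hlt, harc⟩ := H.arc u huV v hvV huv
      obtain ⟨i, hi0, hi1⟩ := exists_bit hlt
      have hij : i < j := by
        by_contra hcon
        have h2 : (2 : ℕ) ^ j ≤ 2 ^ i := Nat.pow_le_pow_right (by norm_num) (not_lt.1 hcon)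
        have h3 := Nat.testBit_lt_two_pow (lt_of_lt_of_le (H.lev_lt v hvV h hhF) h2)
        rw [hi1] at h3
        exact absurd h3 (by simp)
      refine ⟨⟨i, hij⟩, ?_⟩
      intro hdis
      have hsub : P u ⟨i, hij⟩ ⊆ E v ⟨i, hij⟩ := by
        intro x hx
        by_contra hxE
        have hxF : x ∈ F := (hPE u ⟨i, hij⟩ huV).subF ((hPE u ⟨i, hij⟩ huV).sub hx)
        exact Finset.disjoint_left.1 hdis hx (Finset.mem_sdiff.2 ⟨hxF, hxE⟩)
      have h1 := (hPE u ⟨i, hij⟩ huV).lt_of_subset (hPE v ⟨i, hij⟩ hvV) (g := h)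
        (by simp [T, hi0]) (by simp [T, hi1, hhF]) harc hsub
      have h2 : (P u ⟨i, hij⟩).card = a ⟨i, hij⟩ := congrFun (Finset.mem_filter.1 hu).2 _
      have h3 : (P v ⟨i, hij⟩).card = a ⟨i, hij⟩ := congrFun (Finset.mem_filter.1 hv).2 _
      omega
  have hsum : ∑ a ∈ Fintype.piFinset (fun _ : Fin j => range (F.card)),
      ∏ i, (F.card - 1).choose (a i) = (2 ^ j) ^ (F.card - 1) := by
    rw [← Finset.prod_univ_sum]
    have : ∑ b ∈ range F.card, (F.card - 1).choose b = 2 ^ (F.card - 1) := by
      have h := Nat.sum_range_choose (F.card - 1)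
      rwa [Nat.sub_add_cancel hFc] at h
    rw [Finset.prod_congr rfl (fun _ _ => this), Finset.prod_const, Finset.card_univ,
      Fintype.card_fin, ← pow_mul, ← pow_mul, Nat.mul_comm]
  have hV : V.card ≤ (2 ^ j) ^ (F.card - 1) := by
    rw [hcount, ← hsum]
    exact Finset.sum_le_sum hfib
  calc 2 ^ j * V.card ≤ 2 ^ j * (2 ^ j) ^ (F.card - 1) := Nat.mul_le_mul_left _ hV
    _ = (2 ^ j) ^ F.card := by
      rw [← pow_succ', Nat.sub_add_cancel hFc]

/-- **One more level.** -/
theorem card_le_succ {α : Type*} [LinearOrder α] (l N : ℕ) (hl : 1 ≤ l)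
    (IH : ∀ (F : Finset ℕ) (V : Finset α) (lev : α → ℕ → ℕ) (J : α → Finset ℕ → Prop),
      Sys F l V lev J → N * V.card ≤ l ^ F.card)
    {F : Finset ℕ} {V : Finset α} {lev : α → ℕ → ℕ} {J : α → Finset ℕ → Prop}
    (H : Sys F (l + 1) V lev J) : N * V.card ≤ (l + 1) ^ F.card := by
  classical
  let T : α → Finset ℕ := fun v => F.filter (fun h => 1 ≤ lev v h)
  have hex : ∀ v : α, ∃ P E, v ∈ V → Valid F (J v) (T v) P E := by
    intro v
    by_cases hv : v ∈ V
    · obtain ⟨P, E, h⟩ := exists_valid F (J v) (H.empty v hv) (H.full v hv) (T v)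
        (Finset.filter_subset _ _)
      exact ⟨P, E, fun _ => h⟩
    · exact ⟨∅, ∅, fun h => absurd h hv⟩
  choose P E hPE using hex
  have hmaps : ∀ v ∈ V, E v ∈ F.powerset := fun v hv =>
    Finset.mem_powerset.2 (hPE v hv).subF
  have hcount := Finset.card_eq_sum_card_fiberwise hmaps
  have hfib : ∀ D ∈ F.powerset, N * (V.filter (fun v => E v = D)).card ≤ l ^ D.card := by
    intro D hD
    refine IH D _ (fun v h => lev v h - 1) J ⟨?_, ?_, ?_, ?_⟩
    · intro v hv h hh
      have hvV := (Finset.mem_filter.1 hv).1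
      have := H.lev_lt v hvV h (Finset.mem_powerset.1 hD hh)
      show lev v h - 1 < l
      omega
    · intro v hv
      exact H.empty v (Finset.mem_filter.1 hv).1
    · intro v hv
      have hvV := (Finset.mem_filter.1 hv).1
      have hE := (Finset.mem_filter.1 hv).2
      have := (hPE v hvV).not_mem
      rwa [hE] at this
    · intro u hu v hv huv
      have huV := (Finset.mem_filter.1 hu).1
      have hvV := (Finset.mem_filter.1 hv).1
      have hEu := (Finset.mem_filter.1 hu).2
      have hEv := (Finset.mem_filter.1 hv).2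
      obtain ⟨h, hhF, hlt, harc⟩ := H.arc u huV v hvV huv
      have hcu := (hPE u huV).card
      have hcv := (hPE v hvV).card
      have hsub : P u ⊆ E v := by rw [hEv, ← hEu]; exact (hPE u huV).sub
      have hcard : (P v).card = (P u).card := by rw [hEu] at hcu; rw [hEv] at hcv; omega
      have hhv : h ∈ T v := by simp [T, hhF]; omega
      have hhu : h ∈ T u := by
        by_contra hcon
        have := (hPE u huV).lt_of_subset (hPE v hvV) (g := h) hcon hhv harc hsub
        omega
      have hhP := (hPE u huV).mem_of_subset (hPE v hvV) (g := h) hhv harc hsub hcard.le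
      have h1 : 1 ≤ lev u h := (Finset.mem_filter.1 hhu).2
      refine ⟨h, ?_, ?_, harc⟩
      · rw [← hEv]; exact hsub hhP
      · show lev u h - 1 < lev v h - 1
        omega
  rw [hcount, Finset.mul_sum]
  refine (Finset.sum_le_sum hfib).trans (le_of_eq ?_)
  have := Finset.sum_pow_mul_eq_add_pow l 1 F
  simpa using this

/-- **All numbers of levels.** -/
theorem card_le {α : Type*} [LinearOrder α] (j d : ℕ) :
    ∀ (F : Finset ℕ) (V : Finset α) (lev : α → ℕ → ℕ) (J : α → Finset ℕ → Prop),
      Sys F (2 ^ j + d) V lev J → 2 ^ j * V.card ≤ (2 ^ j + d) ^ F.card := by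
  induction d with
  | zero =>
    intro F V lev J H
    exact card_le_two_pow H
  | succ d ih =>
    intro F V lev J H
    exact card_le_succ (2 ^ j + d) (2 ^ j) (by have := Nat.one_le_two_pow (n := j); omega) ih H

end PowTwo

end FlashU
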