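import Mathlib
import Pool.Agent.Work.MP_54723a_co.FlashU.OfCol
import Pool.Agent.Work.MP_54723a_co.FlashU.PowTwo

/-!
# MP_54723a_co: colourings with at most `k` colours, all numbers of levels
-/

set_option autoImplicit false

namespace FlashU

namespace PowTwo

open Function

open Classical in
/-- the longest path of colour `g` into `v` (at most `l`) -/
noncomputable def level {n : ℕ} (l : ℕ) (c : Fin n → Fin n → ℕ) (v : Fin n) (g : ℕ) : ℕ :=
  Nat.findGreatest (fun t => MPath c g t v) l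

theorem sys_of_colouring (l k : ℕ) {n : ℕ} (c : Fin n → Fin n → ℕ) (F : Finset ℕ)
    (hF : F.card = k) (hc : ∀ u v, u < v → c u v ∈ F)
    (hflash : ¬ ∃ x : Fin (l + 1) → Fin n, StrictMono x ∧
      ∃ col : ℕ, ∀ i : Fin l, c (x i.castSucc) (x i.succ) = col)
    (hrain : ¬ ∃ y : Fin (k + 1) → Fin n, StrictMono y ∧
      Injective (fun i : Fin k => c (y i.castSucc) (y i.succ))) :
    Sys F l (Finset.univ : Finset (Fin n)) (level l c) (fun v P => RPath c P v) := by
  classical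
  have hM : ∀ g i, ¬ MPath c g l i := by
    intro g i h
    obtain ⟨x, hx, _, hcol⟩ := h.exists_fun
    exact hflash ⟨x, hx, g, hcol⟩
  have h0 : ∀ g i, MPath c g (level l c i g) i := fun g i =>
    Nat.findGreatest_spec (P := fun t => MPath c g t i) (Nat.zero_le l) (MPath.base i)
  have hlt : ∀ g i, level l c i g < l := by
    intro g i
    have h1 : level l c i g ≤ l := Nat.findGreatest_le l
    rcases Nat.lt_or_ge (level l c i g) l with h | h
    · exact h
    · exact absurd ((le_antisymm h1 h) ▸ h0 g i) (hM g i)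
  refine ⟨fun v _ h _ => hlt h v, fun v _ => RPath.base v, ?_, ?_⟩
  · intro v _ hp
    subst hF
    obtain ⟨y, hy, _, hinj, _⟩ := hp.exists_fun
    exact hrain ⟨y, hy, hinj⟩
  · intro u _ v _ huv
    refine ⟨c u v, hc u v huv, ?_, fun Q hQ hh => RPath.step hQ huv hh⟩
    have h1 : level l c u (c u v) + 1 ≤ l := hlt (c u v) u
    exact Nat.le_findGreatest (P := fun t => MPath c (c u v) t v) h1
      (MPath.step (h0 (c u v) u) huv rfl)

/-- **At most `k` colours.** -/
theorem at_most (l k n : ℕ) (hl : 1 ≤ l) (c : Fin n → Fin n → ℕ)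
    (S : Finset ℕ) (hS : S.card ≤ k) (hc : ∀ u v, u < v → c u v ∈ S)
    (hflash : ¬ ∃ x : Fin (l + 1) → Fin n, StrictMono x ∧
      ∃ col : ℕ, ∀ i : Fin l, c (x i.castSucc) (x i.succ) = col)
    (hrain : ¬ ∃ y : Fin (k + 1) → Fin n, StrictMono y ∧
      Injective (fun i : Fin k => c (y i.castSucc) (y i.succ))) :
    2 ^ Nat.log 2 l * n ≤ l ^ k := by
  classical
  obtain ⟨F, hSF, hF⟩ := Infinite.exists_superset_card_eq S k hS
  have H := sys_of_colouring l k c F hF (fun u v huv => hSF (hc u v huv)) hflash hrain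
  have hlog : 2 ^ Nat.log 2 l ≤ l := Nat.pow_log_le_self 2 (by omega)
  obtain ⟨d, hd⟩ : ∃ d, l = 2 ^ Nat.log 2 l + d := ⟨l - 2 ^ Nat.log 2 l, by omega⟩
  have h := card_le (Nat.log 2 l) d F Finset.univ (level l c) (fun v P => RPath c P v)
    (by rw [← hd]; exact H)
  rw [← hd, hF, Finset.card_univ, Fintype.card_fin] at h
  exact h

theorem at_most_pow (l k n : ℕ) (hk : 1 ≤ k) (h : 2 ^ Nat.log 2 l * n ≤ l ^ k) (j : ℕ)
    (hj : l = 2 ^ j) : n ≤ l ^ (k - 1) := by
  obtain ⟨r, rfl⟩ : ∃ r, k = r + 1 := ⟨k - 1, by omega⟩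
  have hlog : Nat.log 2 l = j := by rw [hj]; exact Nat.log_pow (by norm_num) j
  rw [hlog, ← hj, pow_succ'] at h
  have hl : 0 < l := by rw [hj]; positivity
  simpa using Nat.le_of_mul_le_mul_left h hl

theorem at_most_two (l k n : ℕ) (hl : 1 ≤ l) (hk : 1 ≤ k)
    (h : 2 ^ Nat.log 2 l * n ≤ l ^ k) : n < 2 * l ^ (k - 1) := by
  obtain ⟨r, rfl⟩ : ∃ r, k = r + 1 := ⟨k - 1, by omega⟩
  have h1 : l < 2 ^ (Nat.log 2 l + 1) := Nat.lt_pow_succ_log_self (by norm_num) l
  have h2 : 0 < l ^ r := Nat.pow_pos (by omega)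
  have h3 : 2 ^ Nat.log 2 l * n < 2 ^ Nat.log 2 l * (2 * l ^ r) := by
    calc 2 ^ Nat.log 2 l * n ≤ l ^ (r + 1) := h
      _ = l * l ^ r := by rw [pow_succ']
      _ < 2 ^ (Nat.log 2 l + 1) * l ^ r := Nat.mul_lt_mul_of_pos_right h1 h2
      _ = 2 ^ Nat.log 2 l * (2 * l ^ r) := by rw [pow_succ]; ring
  simpa using Nat.lt_of_mul_lt_mul_left h3

end PowTwo

end FlashU
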