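import Pool.Agent.Work.MP_54723a_co.FlashU.Pair

set_option autoImplicit false

/-! Counting by classes: from the skew set-pair inequality to the power of `l`. -/

namespace FlashU

open Finset

/-- The skew set-pair inequality for several pairs (to be supplied). -/
def SkewB : Prop :=
  ∀ (r n m : ℕ) (P Z : Fin n → Fin r → Finset (Fin m)) (a b : Fin r → ℕ),
    (∀ i j, (P i j).card = a j) → (∀ i j, (Z i j).card = b j) →
    (∀ i j, Disjoint (P i j) (Z i j)) →
    (∀ i i', i < i' → ∃ j, ¬ Disjoint (P i j) (Z i' j)) →
    n ≤ ∏ j, (a j + b j).choose (a j)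

/-- The previous entry of a class, with `R` before the first one. -/
def prev (R : ℕ) {r : ℕ} (a : Fin r → ℕ) (j : Fin r) : ℕ :=
  (Fin.cons R a : Fin (r + 1) → ℕ) j.castSucc

theorem prev_succ (R : ℕ) {r : ℕ} (a : Fin (r + 1) → ℕ) (j : Fin r) :
    prev R a j.succ = prev (a 0) (fun i => a i.succ) j := by
  have h1 : prev R a j.succ = a j.castSucc := by
    unfold prev
    rw [← Fin.succ_castSucc, Fin.cons_succ]
  have h2 : (Fin.cons (a 0) (fun i => a i.succ) : Fin (r + 1) → ℕ) = a := by
    funext i
    refine Fin.cases ?_ (fun i => ?_) i <;> simp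
  rw [h1]
  unfold prev
  rw [h2]

theorem sum_chain (N : ℕ) : ∀ (r R : ℕ), R ≤ N →
    ∑ a ∈ Fintype.piFinset (fun _ : Fin r => range (N + 1)),
      ∏ j, (prev R a j).choose (a j) = (r + 1) ^ R
  | 0, R, _ => by simp
  | r + 1, R, h => by
    have key : ∑ a ∈ Fintype.piFinset (fun _ : Fin (r + 1) => range (N + 1)),
        ∏ j, (prev R a j).choose (a j)
        = ∑ b ∈ range (N + 1), ∑ a ∈ Fintype.piFinset (fun _ : Fin r => range (N + 1)),
            R.choose b * ∏ j, (prev b a j).choose (a j) := by
      rw [← Finset.sum_product' (range (N + 1))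
        (Fintype.piFinset (fun _ : Fin r => range (N + 1)))
        (fun b a => R.choose b * ∏ j, (prev b a j).choose (a j))]
      refine Finset.sum_nbij' (fun a => (a 0, fun j => a j.succ)) (fun p => Fin.cons p.1 p.2)
        ?_ ?_ ?_ ?_ ?_
      · intro a ha
        simp only [Fintype.mem_piFinset] at ha
        simp only [mem_product, Fintype.mem_piFinset]
        exact ⟨ha 0, fun j => ha j.succ⟩
      · rintro ⟨b, a⟩ hp
        simp only [mem_product, Fintype.mem_piFinset] at hp
        simp only [Fintype.mem_piFinset]
        intro j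
        refine Fin.cases ?_ (fun j => ?_) j
        · simpa using hp.1
        · simpa using hp.2 j
      · intro a _
        funext j
        refine Fin.cases ?_ (fun j => ?_) j <;> simp
      · rintro ⟨b, a⟩ _
        simp
      · intro a _
        rw [Fin.prod_univ_succ]
        congr 1
        refine Finset.prod_congr rfl (fun j _ => ?_)
        rw [prev_succ]
    rw [key]
    have : ∀ b ∈ range (N + 1), ∑ a ∈ Fintype.piFinset (fun _ : Fin r => range (N + 1)),
            R.choose b * ∏ j, (prev b a j).choose (a j) = R.choose b * (r + 1) ^ b := by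
      intro b hb
      rw [← Finset.mul_sum, sum_chain N r b (by simpa [Nat.lt_succ_iff] using hb)]
    rw [Finset.sum_congr rfl this]
    have h2 : ∑ b ∈ range (N + 1), R.choose b * (r + 1) ^ b
        = ∑ b ∈ range (R + 1), R.choose b * (r + 1) ^ b := by
      symm
      refine Finset.sum_subset (by intro x; simp; omega) ?_
      intro x _ hx
      rw [Nat.choose_eq_zero_of_lt (by simpa using hx), zero_mul]
    rw [h2, add_pow (r + 1) 1 R]
    refine Finset.sum_congr rfl (fun b _ => ?_)
    simp [mul_comm]

/-- Counting: separated set pairs inside each class give at most `(r + 1) ^ R` objects. -/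
theorem card_le_pow (SB : SkewB) {r R n m : ℕ} (a : Fin n → Fin r → ℕ)
    (P Z : Fin n → Fin r → Finset (Fin m))
    (hP : ∀ i j, (P i j).card = a i j)
    (hZ : ∀ i j, (Z i j).card + a i j = prev R (a i) j)
    (hd : ∀ i j, Disjoint (P i j) (Z i j))
    (hs : ∀ i i', i < i' → a i = a i' → ∃ j, ¬ Disjoint (P i j) (Z i' j)) :
    n ≤ (r + 1) ^ R := by
  classical
  have hle : ∀ i j, a i j ≤ R := by
    intro i j
    have hprev : ∀ j, a i j ≤ prev R (a i) j := fun j => by have := hZ i j; omega
    have : ∀ k : ℕ, ∀ hk : k < r, a i ⟨k, hk⟩ ≤ R := by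
      intro k
      induction k with
      | zero =>
        intro hk
        have := hprev ⟨0, hk⟩
        simpa [prev] using this
      | succ k ih =>
        intro hk
        have h1 := hprev ⟨k + 1, hk⟩
        have h2 : prev R (a i) ⟨k + 1, hk⟩ = a i ⟨k, by omega⟩ := by
          unfold prev
          have : (⟨k + 1, hk⟩ : Fin r).castSucc = (⟨k, by omega⟩ : Fin r).succ := by
            ext; simp
          rw [this, Fin.cons_succ]
        rw [h2] at h1
        exact h1.trans (ih (by omega))
    exact this j.1 j.2
  have hmaps : ∀ i ∈ (univ : Finset (Fin n)),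
      a i ∈ Fintype.piFinset (fun _ : Fin r => range (R + 1)) := by
    intro i _
    simp only [Fintype.mem_piFinset, mem_range]
    intro j
    have := hle i j
    omega
  have hcard := Finset.card_eq_sum_card_fiberwise hmaps
  rw [Finset.card_univ, Fintype.card_fin] at hcard
  rw [hcard, ← sum_chain R r R le_rfl]
  refine Finset.sum_le_sum (fun c _ => ?_)
  set S : Finset (Fin n) := univ.filter (fun i => a i = c) with hS
  have hmem : ∀ i ∈ S, a i = c := fun i hi => (Finset.mem_filter.1 hi).2
  rcases S.eq_empty_or_nonempty with hemp | hne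
  · rw [hemp]
    simp
  set e := S.orderEmbOfFin (rfl : S.card = S.card) with he
  have heS : ∀ k, a (e k) = c := fun k => hmem _ (Finset.orderEmbOfFin_mem S rfl k)
  have hb : ∀ k j, (Z (e k) j).card = prev R c j - c j := by
    intro k j
    have := hZ (e k) j
    rw [heS k] at this
    omega
  have := SB r S.card m (fun k j => P (e k) j) (fun k j => Z (e k) j) c
    (fun j => prev R c j - c j)
    (fun k j => by rw [hP, heS]) hb (fun k j => hd _ _)
    (fun k k' hkk => hs _ _ (e.strictMono hkk) (by rw [heS, heS]))
  refine this.trans (Finset.prod_le_prod' (fun j _ => ?_))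
  obtain ⟨i, hi⟩ := hne
  have h1 := hZ i j
  rw [hmem i hi] at h1
  have : c j + (prev R c j - c j) = prev R c j := by omega
  rw [this]

end FlashU
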