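import Mathlib
import Pool.Agent.Work.MP_54723a_co.FlashU.OfCol
import Pool.Agent.Work.MP_54723a_co.SB.Chain

/-!
# MP_54723a_co, thin case: the two-step rule over a real colouring

Notes 7757 (helper81), 7704 and 7756 (helper7), 7689 (helper24), 7675 (helper6).

For a colouring of the pairs of `Fin n` with colours in a finite set `F` of `R + 1` colours and
without monochromatic monotone path with three edges, every vertex is given pairs `P ⊆ E` and
`Y ⊆ Z` (`Z` is called `F_v` in the notes). Step one separates all arcs except those whose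
colour has level one at the source and level two at the target. Step two uses only subsets of
the level two colours. The theorem of helper39 on chains then bounds the number of vertices.
-/

set_option autoImplicit false

namespace FlashU

open Finset

section Real

variable {n : ℕ}

/-- The colour enters the vertex. -/
def InC (c : Fin n → Fin n → ℕ) (v : Fin n) (g : ℕ) : Prop := ∃ u, u < v ∧ c u v = g

/-- The colour leaves the vertex. -/
def OutC (c : Fin n → Fin n → ℕ) (v : Fin n) (g : ℕ) : Prop := ∃ w, v < w ∧ c v w = g

/-- The first pair of a vertex: conditions (S) and (T). -/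
structure Step1 (c : Fin n → Fin n → ℕ) (F : Finset ℕ) (v : Fin n) (P : Finset ℕ) (x : ℕ) :
    Prop where
  sub : P ⊆ F
  mem : x ∈ F
  notMem : x ∉ P
  s_out : ∀ h, OutC c v h → h ∉ P → RPath c P v
  s_in : ∀ h, OutC c v h → ¬ InC c v h → h ∈ P → ∀ b ∈ F, b ∉ P →
    RPath c (insert b (P.erase h)) v
  t_in : ∀ h, InC c v h → h ∈ insert x P → ¬ RPath c (insert x P) v
  t_out : ∀ h, InC c v h → h ∉ insert x P → ∀ y ∈ insert x P,
    ¬ RPath c (insert h ((insert x P).erase y)) v

/-- Conclusion of step one: an arc which is not separated has level one at the source, level two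
at the target, and its colour lies in the first set of the source. -/
theorem Step1.unkilled {c : Fin n → Fin n → ℕ} {F : Finset ℕ} {u v : Fin n}
    {P P' : Finset ℕ} {x x' : ℕ} (hu : Step1 c F u P x) (hv : Step1 c F v P' x')
    (huv : u < v) (hcard : P.card = P'.card) (hsub : P ⊆ insert x' P') :
    c u v ∈ P ∧ InC c u (c u v) := by
  classical
  have hout : OutC c u (c u v) := ⟨v, huv, rfl⟩
  have hin : InC c v (c u v) := ⟨u, huv, rfl⟩
  have hE : (insert x' P').card = P.card + 1 := by
    rw [Finset.card_insert_of_notMem hv.notMem, hcard]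
  -- the extra element of `E_v`
  obtain ⟨z, hzE, hzP⟩ : ∃ z ∈ insert x' P', z ∉ P := by
    by_contra hcon
    push Not at hcon
    have : (insert x' P').card ≤ P.card := Finset.card_le_card hcon
    omega
  have hEq : insert z P = insert x' P' := by
    refine Finset.eq_of_subset_of_card_le ?_ ?_
    · intro a ha
      rcases Finset.mem_insert.1 ha with rfl | ha
      · exact hzE
      · exact hsub ha
    · rw [hE, Finset.card_insert_of_notMem hzP]
  have hzF : z ∈ F := by
    rcases Finset.mem_insert.1 hzE with rfl | hz
    · exact hv.mem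
    · exact hv.sub hz
  by_cases hg : c u v ∈ P
  · refine ⟨hg, ?_⟩
    by_contra hnin
    have h1 := hu.s_in _ hout hnin hg z hzF hzP
    have hgz : c u v ≠ z := fun h => hzP (h ▸ hg)
    have h2 : c u v ∉ insert z (P.erase (c u v)) := by
      intro h
      rcases Finset.mem_insert.1 h with h | h
      · exact hgz h
      · exact (Finset.mem_erase.1 h).1 rfl
    have h3 := RPath.step h1 huv h2
    have h4 : insert (c u v) (insert z (P.erase (c u v))) = insert x' P' := by
      rw [← hEq, Finset.insert_comm, Finset.insert_erase hg]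
    rw [h4] at h3
    exact hv.t_in _ hin (hsub hg) h3
  · exfalso
    have h1 := RPath.step (hu.s_out _ hout hg) huv hg
    by_cases hgE : c u v ∈ insert x' P'
    · have hzg : c u v = z := by
        rw [← hEq] at hgE
        rcases Finset.mem_insert.1 hgE with h | h
        · exact h
        · exact absurd h hg
      rw [hzg, hEq] at h1
      exact hv.t_in _ hin hgE h1
    · have h2 := hv.t_out _ hin hgE z hzE
      have h3 : (insert x' P').erase z = P := by
        rw [← hEq, Finset.erase_insert hzP]
      rw [h3] at h2
      exact h2 h1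

/-- No monochromatic monotone path with three edges. -/
def NoFlash3 (c : Fin n → Fin n → ℕ) : Prop :=
  ¬ ∃ a b d e : Fin n, a < b ∧ b < d ∧ d < e ∧ c a b = c b d ∧ c b d = c d e

/-- The data of the rule: sets and elements of every vertex. -/
structure Data (n : ℕ) where
  /-- first set -/
  P : Fin n → Finset ℕ
  /-- additional element of the first set -/
  x : Fin n → ℕ
  /-- second set -/
  Y : Fin n → Finset ℕ
  /-- additional element of the second set -/
  y : Fin n → ℕ

/-- The upper first set. -/
def Data.E (D : Data n) (v : Fin n) : Finset ℕ := insert (D.x v) (D.P v)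

/-- The upper second set. -/
def Data.Z (D : Data n) (v : Fin n) : Finset ℕ := insert (D.y v) (D.Y v)

/-- The sets `Y_u + g` of the unkilled arcs into `v`. -/
def Data.W (c : Fin n → Fin n → ℕ) (D : Data n) (v : Fin n) (S : Finset ℕ) : Prop :=
  ∃ u, u < v ∧ (D.P u).card = (D.P v).card ∧ D.P u ⊆ D.E v ∧ S = insert (c u v) (D.Y u)

/-- Kind (C) of a vertex. -/
def Data.KindC (c : Fin n → Fin n → ℕ) (D : Data n) (v : Fin n) : Prop :=
  (∀ g ∈ D.P v, InC c v g → ¬ OutC c v g) ∧ D.Y v = D.P v ∧ D.y v = D.x v

/-- Kinds (A) and (B) of a vertex, in one condition: the second sets consist of level two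
colours, up to the element `y`, and no set `Y_u + g` of an unkilled arc is in the way. -/
def Data.KindAB (c : Fin n → Fin n → ℕ) (D : Data n) (v : Fin n) : Prop :=
  D.Y v ⊆ D.P v ∧ D.y v ∈ D.E v ∧ D.y v ∉ D.Y v ∧
  (∀ g ∈ D.Y v, InC c v g ∧ ¬ OutC c v g) ∧
  ((∀ g ∈ D.E v, InC c v g → ¬ OutC c v g → g ∈ D.Y v) ∧ ¬ D.W c v (D.Z v) ∨
    (InC c v (D.y v) ∧ ¬ OutC c v (D.y v)) ∧
      ∀ S, D.W c v S → S.card = (D.Y v).card + 1 →
        ¬ (∀ g ∈ S, g ∈ D.E v ∧ InC c v g ∧ ¬ OutC c v g))

/-- The choice is admissible. -/
structure Data.Good (c : Fin n → Fin n → ℕ) (F : Finset ℕ) (D : Data n) : Prop where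
  step1 : ∀ v, Step1 c F v (D.P v) (D.x v)
  step2 : ∀ v, D.KindC c v ∨ D.KindAB c v

theorem Data.Good.separated {c : Fin n → Fin n → ℕ} {F : Finset ℕ} {D : Data n}
    (hD : D.Good c F) (hfl : NoFlash3 c) {u v : Fin n} (huv : u < v)
    (h1 : (D.P u).card = (D.P v).card) (h2 : (D.Y u).card = (D.Y v).card)
    (hPE : D.P u ⊆ D.E v) : ¬ D.Y u ⊆ D.Z v := by
  classical
  intro hYZ
  obtain ⟨hgP, hgIn⟩ := (hD.step1 u).unkilled (hD.step1 v) huv h1 hPE
  have hgout : OutC c u (c u v) := ⟨v, huv, rfl⟩
  have hgInv : InC c v (c u v) := ⟨u, huv, rfl⟩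
  have hgOutv : ¬ OutC c v (c u v) := by
    rintro ⟨w, hvw, hw⟩
    obtain ⟨t, htu, ht⟩ := hgIn
    exact hfl ⟨t, u, v, w, htu, huv, hvw, ht, hw.symm⟩
  -- the source is not of kind (C)
  have hu : D.KindAB c u := by
    rcases hD.step2 u with h | h
    · exact absurd hgout (h.1 _ hgP hgIn)
    · exact h
  have hgY : c u v ∉ D.Y u := fun h => (hu.2.2.2.1 _ h).2 hgout
  have hWmem : D.W c v (insert (c u v) (D.Y u)) := ⟨u, huv, h1, hPE, rfl⟩
  have hcardins : (insert (c u v) (D.Y u)).card = (D.Y v).card + 1 := by
    rw [Finset.card_insert_of_notMem hgY, h2]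
  rcases hD.step2 v with hC | hAB
  · -- kind (C) at the target
    have hsub : D.Y u ⊆ D.P u := hu.1
    have : D.Y u = D.P u := by
      refine Finset.eq_of_subset_of_card_le hsub ?_
      rw [h1, h2, hC.2.1]
    exact hgY (this ▸ hgP)
  · obtain ⟨hYP, hyE, hyY, hlev, hcase⟩ := hAB
    have hZcard : (D.Z v).card = (D.Y v).card + 1 := by
      unfold Data.Z
      rw [Finset.card_insert_of_notMem hyY]
    rcases hcase with ⟨hall, hW⟩ | ⟨hylev, hW⟩
    · -- kind (A)
      have hgYv : c u v ∈ D.Y v := hall _ (hPE hgP) hgInv hgOutv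
      have hgZ : c u v ∈ D.Z v := Finset.mem_insert_of_mem hgYv
      have : insert (c u v) (D.Y u) = D.Z v := by
        refine Finset.eq_of_subset_of_card_le ?_ (by rw [hcardins, hZcard])
        intro a ha
        rcases Finset.mem_insert.1 ha with rfl | ha
        · exact hgZ
        · exact hYZ ha
      rw [this] at hWmem
      exact hW hWmem
    · -- kind (B)
      refine hW _ hWmem hcardins ?_
      intro a ha
      rcases Finset.mem_insert.1 ha with rfl | ha
      · exact ⟨hPE hgP, hgInv, hgOutv⟩
      · rcases Finset.mem_insert.1 (hYZ ha) with rfl | ha'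
        · exact ⟨hyE, hylev⟩
        · exact ⟨Finset.mem_insert_of_mem (hYP ha'), hlev _ ha'⟩

/-- **Thin colourings, modulo the choice.** -/
theorem thin_of_good {R : ℕ} {c : Fin n → Fin n → ℕ} {F : Finset ℕ} (hF : F.card = R + 1)
    (hfl : NoFlash3 c) {D : Data n} (hD : D.Good c F) : n ≤ 3 ^ R := by
  classical
  let P' : Fin n → ℕ → Finset ℕ := fun v t => if t = 0 then F else if t = 1 then D.P v else D.Y v
  let W' : Fin n → ℕ → Finset ℕ := fun v t => if t = 0 then F else if t = 1 then D.E v else D.Z v
  have hEF : ∀ v, D.E v ⊆ F := by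
    intro v a ha
    rcases Finset.mem_insert.1 ha with rfl | ha
    · exact (hD.step1 v).mem
    · exact (hD.step1 v).sub ha
  have hYP : ∀ v, D.Y v ⊆ D.P v := by
    intro v
    rcases hD.step2 v with h | h
    · exact h.2.1.subset
    · exact h.1
  have hZE : ∀ v, D.Z v ⊆ D.E v := by
    intro v
    rcases hD.step2 v with h | h
    · unfold Data.Z Data.E
      rw [h.2.1, h.2.2]
    · intro a ha
      rcases Finset.mem_insert.1 ha with rfl | ha
      · exact h.2.1
      · exact Finset.mem_insert_of_mem (h.1 ha)
  have hyY : ∀ v, D.y v ∉ D.Y v := by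
    intro v
    rcases hD.step2 v with h | h
    · rw [h.2.1, h.2.2]; exact (hD.step1 v).notMem
    · exact h.2.2.1
  have key := FlashRainbow.SB.card_le_pow_of_chains (Finset.univ : Finset (Fin n)) 2 R F hF P' W'
    (fun v _ => by simp [W']) (fun v _ => by simp [P'])
    (fun v _ t ht => by
      interval_cases t
      · simp only [P', W']; norm_num; exact Finset.subset_insert _ _
      · simp only [P', W']; norm_num; exact Finset.subset_insert _ _)
    (fun v _ t ht => by
      interval_cases t
      · simp only [W']; norm_num; exact hEF v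
      · simp only [W']; norm_num; exact hZE v)
    (fun v _ t ht => by
      interval_cases t
      · simp only [P']; norm_num; exact (hD.step1 v).sub
      · simp only [P']; norm_num; exact hYP v)
    (fun v _ t ht => by
      interval_cases t
      · simp only [P', W']; norm_num
        exact Finset.card_insert_of_notMem (hD.step1 v).notMem
      · simp only [P', W']; norm_num
        exact Finset.card_insert_of_notMem (hyY v))
    (fun u _ v _ huv hcard => by
      have h1 : (D.P u).card = (D.P v).card := by
        have := hcard 0 (by norm_num)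
        simpa [P'] using this
      have h2 : (D.Y u).card = (D.Y v).card := by
        have := hcard 1 (by norm_num)
        simpa [P'] using this
      by_cases hPE : D.P u ⊆ D.E v
      · refine ⟨1, by norm_num, ?_⟩
        simp only [P', W']; norm_num
        exact hD.separated hfl huv h1 h2 hPE
      · refine ⟨0, by norm_num, ?_⟩
        simp only [P', W']; norm_num
        exact hPE)
  simpa using key

end Real

end FlashU
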