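import Pool.Agent.Work.MP_54723a_co.FlashU.Lab

set_option autoImplicit false

/-! The pair of a subset with respect to a family of palettes (thin case). -/

namespace FlashU

variable {m : ℕ}

/-- `(P, F)` is a valid pair for the family `J` and the set `I`. -/
structure Valid (J : Finset (Finset (Fin m))) (I P F : Finset (Fin m)) : Prop where
  sub : P ⊆ F
  card : F.card = P.card + 1
  typ : (I ∈ J ∧ I ⊆ P ∧ F ∉ J ∧ ∀ Q, I ⊆ Q → Q.card ≤ P.card → Q ∈ J) ∨
    (I ∉ J ∧ F ⊆ I ∧ P ∈ J ∧ ∀ Q, Q ⊆ I → P.card < Q.card → Q ∉ J)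

theorem exists_valid (J : Finset (Finset (Fin m))) (h0 : ∅ ∈ J) (h1 : Finset.univ ∉ J)
    (I : Finset (Fin m)) : ∃ P F, Valid J I P F := by
  classical
  by_cases hI : I ∈ J
  · -- minimal superset not in `J`
    set S : Finset (Finset (Fin m)) := Finset.univ.filter (fun Q => I ⊆ Q ∧ Q ∉ J) with hS
    have hne : S.Nonempty := ⟨Finset.univ, by simp [hS, h1]⟩
    obtain ⟨F, hF, hmin⟩ := Finset.exists_min_image S Finset.card hne
    have hF' : I ⊆ F ∧ F ∉ J := by simpa [hS] using hF
    have hIF : I ≠ F := fun h => hF'.2 (h ▸ hI)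
    obtain ⟨h, hhF, hhI⟩ : ∃ h ∈ F, h ∉ I := by
      by_contra hcon
      push Not at hcon
      exact hIF (Finset.Subset.antisymm hF'.1 hcon)
    have hcard : F.card = (F.erase h).card + 1 := by
      rw [Finset.card_erase_of_mem hhF]
      have := Finset.card_pos.2 ⟨h, hhF⟩
      omega
    refine ⟨F.erase h, F, ⟨Finset.erase_subset _ _, hcard, Or.inl ⟨hI, ?_, hF'.2, ?_⟩⟩⟩
    · intro x hx
      exact Finset.mem_erase.2 ⟨fun hxh => hhI (hxh ▸ hx), hF'.1 hx⟩
    · intro Q hIQ hQc
      by_contra hQ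
      have := hmin Q (by simp [hS, hIQ, hQ])
      omega
  · set S : Finset (Finset (Fin m)) := J.filter (fun Q => Q ⊆ I) with hS
    have hne : S.Nonempty := ⟨∅, by simp [hS, h0]⟩
    obtain ⟨P, hP, hmax⟩ := Finset.exists_max_image S Finset.card hne
    have hP' : P ∈ J ∧ P ⊆ I := by simpa [hS] using hP
    have hIP : P ≠ I := fun h => hI (h ▸ hP'.1)
    obtain ⟨h, hhI, hhP⟩ : ∃ h ∈ I, h ∉ P := by
      by_contra hcon
      push Not at hcon
      exact hIP (Finset.Subset.antisymm hP'.2 hcon)
    refine ⟨P, insert h P, ⟨Finset.subset_insert _ _, Finset.card_insert_of_notMem hhP,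
      Or.inr ⟨hI, ?_, hP'.1, ?_⟩⟩⟩
    · intro x hx
      rcases Finset.mem_insert.1 hx with rfl | hx
      · exact hhI
      · exact hP'.2 hx
    · intro Q hQI hQc hQ
      have := hmax Q (by simp [hS, hQI, hQ])
      omega

theorem Valid.not_mem {J : Finset (Finset (Fin m))} {I P F : Finset (Fin m)}
    (h : Valid J I P F) : F ∉ J := by
  rcases h.typ with ⟨_, _, h3, _⟩ | ⟨_, h2, _, h4⟩
  · exact h3
  · exact h4 F h2 (by have := h.card; omega)

theorem Valid.mem {J : Finset (Finset (Fin m))} {I P F : Finset (Fin m)}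
    (h : Valid J I P F) : P ∈ J := by
  rcases h.typ with ⟨_, h2, _, h4⟩ | ⟨_, _, h3, _⟩
  · exact h4 P h2 le_rfl
  · exact h3

/-- Along an arc which crosses the cut, the pairs are separated or the size goes up. -/
theorem Valid.lt_of_subset {J J' : Finset (Finset (Fin m))} {I I' P F P' F' : Finset (Fin m)}
    (hv : Valid J I P F) (hv' : Valid J' I' P' F') {g : Fin m} (hg : g ∉ I) (hg' : g ∈ I')
    (harc : ∀ Q ∈ J, g ∉ Q → insert g Q ∈ J') (hsub : P ⊆ F') : P.card < P'.card := by
  by_contra hlt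
  have hle : P'.card ≤ P.card := not_lt.1 hlt
  have hF'c := hv'.card
  -- the case `g ∉ F'`
  have key : g ∉ F' → g ∉ P → P ∈ J → False := by
    intro hgF hgP hPJ
    rcases hv'.typ with ⟨_, h2, _, _⟩ | ⟨_, h2, _, h4⟩
    · exact hgF (hv'.sub (h2 hg'))
    · refine h4 (insert g P) ?_ ?_ (harc P hPJ hgP)
      · intro x hx
        rcases Finset.mem_insert.1 hx with rfl | hx
        · exact hg'
        · exact h2 (hsub hx)
      · rw [Finset.card_insert_of_notMem hgP]; omega
  rcases hv.typ with ⟨_, h2, _, h4⟩ | ⟨_, h2, _, _⟩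
  · by_cases hgF : g ∈ F'
    · have hc : (F'.erase g).card = P'.card := by
        rw [Finset.card_erase_of_mem hgF]; omega
      have hmem : F'.erase g ∈ J := by
        refine h4 _ ?_ (by omega)
        intro x hx
        exact Finset.mem_erase.2 ⟨fun hxg => hg (hxg ▸ hx), hsub (h2 hx)⟩
      have := harc _ hmem (Finset.notMem_erase _ _)
      rw [Finset.insert_erase hgF] at this
      exact hv'.not_mem this
    · exact key hgF (fun h => hgF (hsub h)) hv.mem
  · have hgP : g ∉ P := fun h => hg (h2 (hv.sub h))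
    by_cases hgF : g ∈ F'
    · have hins : insert g P = F' := by
        refine Finset.eq_of_subset_of_card_le ?_ ?_
        · intro x hx
          rcases Finset.mem_insert.1 hx with rfl | hx
          · exact hgF
          · exact hsub hx
        · rw [Finset.card_insert_of_notMem hgP]; omega
      have := harc P hv.mem hgP
      rw [hins] at this
      exact hv'.not_mem this
    · exact key hgF hgP hv.mem

end FlashU
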