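import Pool.Agent.Work.MP_54723a_co.FlashU.Two
import Pool.Agent.Work.MP_54723a_co.SB.SkewBollobas

set_option autoImplicit false

/-! The skew set-pair inequality holds; hence the thin case for two levels. -/

namespace FlashU

theorem skewB : SkewB := by
  intro r n m P Z a b hP hZ hd hs
  have h := FlashRainbow.SB.hadamard (ι := Fin r) (α := Fin n) Finset.univ a b
    (fun v j => (P v j).map Fin.valEmbedding) (fun v j => (Z v j).map Fin.valEmbedding)
    (fun v _ j => by rw [Finset.card_map]; exact hP v j)
    (fun v _ j => by rw [Finset.card_map]; exact hZ v j)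
    (fun v _ j => by rw [Finset.disjoint_map]; exact hd v j)
    (fun u _ v _ huv => by
      obtain ⟨j, hj⟩ := hs u v huv
      exact ⟨j, by rw [Finset.disjoint_map]; exact hj⟩)
  simpa using h

/-- Thin case, two levels. -/
theorem thin_two' {n R : ℕ} (lab : Fin n → Lab (R + 1))
    (ok : ∀ i, (lab i).Ok 2 R) (arc : ∀ i j, i < j → Arc (lab i) (lab j)) : n ≤ 2 ^ R :=
  thin_two skewB lab ok arc

end FlashU
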