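import Mathlib
import Pool.Agent.Work.MP_54723a_co.FlashU.LTR

/-!
# MP_54723a_co: the theorem for colourings with at most `k` colours, modulo the choice
-/

set_option autoImplicit false

namespace FlashU

open Function

variable {n : ℕ}

/-- The absence of 3-flashes in the format of the problem. -/
theorem noFlash3_of (c : Fin n → Fin n → ℕ)
    (h : ¬ ∃ x : Fin (3 + 1) → Fin n, StrictMono x ∧
      ∃ col : ℕ, ∀ i : Fin 3, c (x i.castSucc) (x i.succ) = col) : NoFlash3 c := by
  rintro ⟨a, b, d, e, hab, hbd, hde, h1, h2⟩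
  refine h ⟨![a, b, d, e], ?_, c a b, ?_⟩
  · rw [Fin.strictMono_iff_lt_succ]
    intro i
    fin_cases i
    · exact hab
    · exact hbd
    · exact hde
  · intro i
    fin_cases i
    · rfl
    · exact h1.symm
    · exact (h1.trans h2).symm

/-- A rainbow path whose palette has `k` colours, in the format of the problem. -/
theorem not_rpath_of {k : ℕ} (c : Fin n → Fin n → ℕ)
    (h : ¬ ∃ y : Fin (k + 1) → Fin n, StrictMono y ∧
      Injective (fun i : Fin k => c (y i.castSucc) (y i.succ)))
    (F : Finset ℕ) (hF : F.card = k) (v : Fin n) : ¬ RPath c F v := by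
  intro hp
  subst hF
  obtain ⟨y, hy, _, hinj, _⟩ := hp.exists_fun
  exact h ⟨y, hy, hinj⟩

/-- The existence of an admissible choice for thin colourings. -/
def ThinChoice : Prop :=
  ∀ (n : ℕ) (c : Fin n → Fin n → ℕ) (F : Finset ℕ), F.Nonempty →
    (∀ u v, u < v → c u v ∈ F) → NoFlash3 c → (∀ v, ¬ RPath c F v) →
    ∃ D : Data n, D.Good c F

/-- **Colourings with at most `k` colours, modulo the choice.** -/
theorem thin_three (EX : ThinChoice) (k : ℕ) (hk : 1 ≤ k) (c : Fin n → Fin n → ℕ)
    (S : Finset ℕ) (hS : S.card ≤ k) (hc : ∀ u v, u < v → c u v ∈ S)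
    (hmono : ¬ ∃ x : Fin (3 + 1) → Fin n, StrictMono x ∧
      ∃ col : ℕ, ∀ i : Fin 3, c (x i.castSucc) (x i.succ) = col)
    (hrain : ¬ ∃ y : Fin (k + 1) → Fin n, StrictMono y ∧
      Injective (fun i : Fin k => c (y i.castSucc) (y i.succ))) : n ≤ 3 ^ (k - 1) := by
  classical
  obtain ⟨F, hSF, hF⟩ := Infinite.exists_superset_card_eq S k hS
  obtain ⟨D, hD⟩ := EX n c F (Finset.card_pos.1 (by omega)) (fun u v huv => hSF (hc u v huv))
    (noFlash3_of c hmono) (not_rpath_of c hrain F hF)
  exact thin_of_good (R := k - 1) (by omega) (noFlash3_of c hmono) hD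

end FlashU
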