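import Pool.Agent.Work.MP_54723a_co.FlashU.Count

set_option autoImplicit false

/-! The thin case for two levels. -/

namespace FlashU

open Finset

variable {m : ℕ}

/-- The colours in which the level is at least `t`. -/
def Lab.top (x : Lab m) (t : ℕ) : Finset (Fin m) := univ.filter (fun g => t ≤ x.lev g)

theorem thin_two (SB : SkewB) {n R : ℕ} (lab : Fin n → Lab (R + 1))
    (ok : ∀ i, (lab i).Ok 2 R) (arc : ∀ i j, i < j → Arc (lab i) (lab j)) : n ≤ 2 ^ R := by
  classical
  have h1 : ∀ i, (univ : Finset (Fin (R + 1))) ∉ (lab i).pal := by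
    intro i hi
    have := (ok i).card_le _ hi
    simp at this
  choose P F hv using fun i => exists_valid (lab i).pal (ok i).empty_mem (h1 i) ((lab i).top 1)
  refine card_le_pow SB (r := 1) (R := R) (fun i _ => (P i).card) (fun i _ => P i)
    (fun i _ => (F i)ᶜ) (fun _ _ => rfl) ?_ ?_ ?_
  · intro i j
    have hc := (hv i).card
    have : (F i)ᶜ.card = R + 1 - (F i).card := by
      rw [Finset.card_compl, Fintype.card_fin]
    have h2 : (F i).card ≤ R + 1 := by
      simpa using Finset.card_le_univ (F i)
    have h3 : prev R (fun _ : Fin 1 => (P i).card) j = R := by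
      have : j = 0 := Subsingleton.elim _ _
      subst this
      simp [prev]
    rw [h3]
    show (F i)ᶜ.card + (P i).card = R
    omega
  · intro i j
    exact disjoint_compl_right.mono_left (hv i).sub
  · intro i i' hii heq
    refine ⟨0, ?_⟩
    intro hdis
    have hsub : P i ⊆ F i' := by
      intro x hx
      by_contra hxF
      exact Finset.disjoint_left.1 hdis hx (Finset.mem_compl.2 hxF)
    obtain ⟨h, hlt, harc⟩ := arc i i' hii
    have l1 := (ok i').lev_lt h
    have := (hv i).lt_of_subset (hv i') (g := h) (by simp [Lab.top]; omega)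
      (by simp [Lab.top]; omega) harc hsub
    have h4 := congrFun heq 0
    have h5 : (P i).card = (P i').card := h4
    omega

end FlashU
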